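import Pool.Agent.Q110.HC.Block

set_option autoImplicit false
open Finset

namespace Pool.Agent.Results.MP_626dc7_co.LinearGrowth

open Q110.HC

/-- The 2-degree of `F`: the largest number of members of `F` containing a given pair. -/
def d2 {n : ℕ} (F : Finset (Finset (Fin n))) : ℕ :=
  ((Finset.univ : Finset (Finset (Fin n))).filter (fun D => D.card = 2)).sup
    (fun D => (F.filter (fun X => D ⊆ X)).card)

/-- `m_2((2,2), n)`: the least 2-degree of a family of 4-subsets with respect to which `K_n` has no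
`(2,2)`-acceptable Hamilton cycle. -/
noncomputable def m2 (n : ℕ) : ℕ :=
  sInf {k | ∃ F : Finset (Finset (Fin n)), (∀ X ∈ F, X.card = 4) ∧
    (∀ c : Equiv.Perm (Fin n), ¬ Acceptable F c) ∧ d2 F = k}

theorem deg_le {n : ℕ} (F : Finset (Finset (Fin n))) (hF : ∀ X ∈ F, X.card = 4) (u : Fin n) :
    3 * deg F u ≤ n * d2 F := by
  classical
  -- double count pairs (X, v), `u, v ∈ X`, `v ≠ u`
  have h1 : ∑ X ∈ F.filter (fun X => u ∈ X), (X.erase u).card =
      ∑ v ∈ Finset.univ.erase u, (F.filter (fun X => {u, v} ⊆ X)).card := by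
    have e1 : ∀ X ∈ F.filter (fun X => u ∈ X), (X.erase u).card =
        ∑ v ∈ Finset.univ.erase u, if v ∈ X then 1 else 0 := by
      intro X _
      rw [← Finset.card_filter]
      congr 1
      ext v
      simp [and_comm]
    rw [Finset.sum_congr rfl e1, Finset.sum_comm]
    refine Finset.sum_congr rfl fun v _ => ?_
    rw [← Finset.card_filter, Finset.filter_filter]
    congr 1
    ext X
    simp only [Finset.mem_filter, Finset.insert_subset_iff, Finset.singleton_subset_iff]
  have h2 : ∑ X ∈ F.filter (fun X => u ∈ X), (X.erase u).card = 3 * deg F u := by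
    have e1 : ∀ X ∈ F.filter (fun X => u ∈ X), (X.erase u).card = 3 := by
      intro X hX
      obtain ⟨h1, h2⟩ := Finset.mem_filter.1 hX
      rw [Finset.card_erase_of_mem h2, hF X h1]
    rw [Finset.sum_congr rfl e1, Finset.sum_const, smul_eq_mul, mul_comm]
    rfl
  rw [← h2, h1]
  have h3 : ∀ v ∈ Finset.univ.erase u, (F.filter (fun X => {u, v} ⊆ X)).card ≤ d2 F := by
    intro v hv
    have hvu : u ≠ v := (Finset.ne_of_mem_erase hv).symm
    unfold d2
    exact Finset.le_sup (f := fun D : Finset (Fin n) => (F.filter (fun X => D ⊆ X)).card)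
      (Finset.mem_filter.2 ⟨Finset.mem_univ _, Finset.card_pair hvu⟩)
  refine (Finset.sum_le_card_nsmul _ _ _ h3).trans ?_
  rw [smul_eq_mul]
  refine Nat.mul_le_mul_right _ ((Finset.card_le_univ _).trans ?_)
  simp

theorem exists_of_small {n : ℕ} (hn : 10 ≤ n) (F : Finset (Finset (Fin n)))
    (hF : ∀ X ∈ F, X.card = 4) (h : 7000 * d2 F ≤ 3 * n) :
    ∃ c : Equiv.Perm (Fin n), Acceptable F c := by
  refine main hn F fun u => ?_
  have h1 := deg_le F hF u
  nlinarith

theorem nonempty {n : ℕ} (hn : 4 ≤ n) : {k | ∃ F : Finset (Finset (Fin n)),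
    (∀ X ∈ F, X.card = 4) ∧ (∀ c : Equiv.Perm (Fin n), ¬ Acceptable F c) ∧ d2 F = k}.Nonempty := by
  classical
  refine ⟨_, (Finset.univ : Finset (Finset (Fin n))).filter (fun X => X.card = 4), ?_, ?_, rfl⟩
  · intro X hX
    exact (Finset.mem_filter.1 hX).2
  · intro c hc
    obtain ⟨i, j, h1, _, _, h4⟩ := two_edges hn c ⟨0, by omega⟩ ⟨1, by omega⟩ (by simp)
    exact hc i j h1 (Finset.mem_filter.2 ⟨Finset.mem_univ _, h4⟩)

/-- `m_2((2,2), n) ≥ (3/7000) n` for all `n ≥ 10`; in particular `m_2((2,2), n)` grows linearly. -/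
theorem result : ∃ c : ℝ, 0 < c ∧ ∀ n : ℕ, 10 ≤ n → c * n ≤ (m2 n : ℝ) := by
  refine ⟨3 / 7000, by norm_num, fun n hn => ?_⟩
  obtain ⟨F, hF, hc, hk⟩ := Nat.sInf_mem (nonempty (n := n) (by omega))
  by_contra hcon
  push Not at hcon
  have hk' : d2 F = m2 n := hk
  have h1 : 7000 * d2 F ≤ 3 * n := by
    rw [hk']
    have h2 : (7000 : ℝ) * (m2 n : ℝ) < 3 * n := by linarith
    have h3 : 7000 * m2 n < 3 * n := by exact_mod_cast h2
    exact h3.le
  obtain ⟨c, hcc⟩ := exists_of_small hn F hF h1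
  exact hc c hcc

end Pool.Agent.Results.MP_626dc7_co.LinearGrowth
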